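import Pool.Agent.H855Z.WExtProof

universe u v

namespace Pool.Agent.Results.MP_0b62d6_lc.AWeakExtDistrib

open Pool.Agent.H855Z.WExt

/-- Every Boolean `m`-algebra with the weak `m`-extension property is weakly `m`-distributive. -/
theorem result : ∀ (m : Cardinal.{u}), Cardinal.aleph0 ≤ m →
    ∀ (A' : Type v) [BooleanAlgebra A'], IsMAlgebra m A' →
      WeakExtension m A' → WeaklyDistributive m A' :=
  fun m _ A' _ hA hE => weaklyDistributive_of_weakExtension m A' hA hE

end Pool.Agent.Results.MP_0b62d6_lc.AWeakExtDistrib
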